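import Pool.Agent.W2helper58.GF.Stm
import Pool.Agent.H620R2.GaugeR.R8

/-!
# Piece GF-G2: for most oracles no large block looks as if it were in use
-/

namespace Pool.Agent.W2helper66.GF

open Pool.Agent.NPC Pool.Agent.H620R2.Gauge Pool.Agent.W2helper58.GF Finset H568R2
  Pool.Agent.H676 MeasureTheory

open Classical in
lemma ex_const {I : Type} [Fintype I] (c : Bool) :
    Ex unif (fun a : I → Bool => if (∀ i, a i = c) then (1 : ℝ) else 0) =
      (1 / 2) ^ Fintype.card I := by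
  unfold Ex
  have : ∀ ω : I → Bool, (∏ i, unif (ω i)) = (1 / 2) ^ Fintype.card I := by
    intro ω
    simp [unif]
  simp only [this]
  rw [← Finset.mul_sum]
  have h2 : ∀ a : I → Bool, (if (∀ i, a i = c) then (1 : ℝ) else 0) =
      if a = fun _ => c then 1 else 0 := by
    intro a
    simp [funext_iff]
  simp only [h2]
  rw [Finset.sum_ite_eq' Finset.univ (fun _ : I => c) (fun _ => (1 : ℝ))]
  simp

lemma adr_inj (n k : ℕ) (b : Bool) (r : List Bool) {j j' : ℕ}
    (h : adr n k b r j = adr n k b r j') : j = j' := by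
  unfold adr pairBits at h
  have h1 := List.append_cancel_left h
  simp only [List.cons.injEq, true_and] at h1
  have h2 := List.append_cancel_left h1
  have h3 := congrArg (List.count true) h2
  simpa [List.count_replicate] using h3

lemma cell_le (n k : ℕ) (b : Bool) (r : List Bool) (c : Bool) :
    ranO {A : Oracle | ∀ j < 3 * n, A (adr n k b r j) = c} ≤
      ENNReal.ofReal ((1 / 2) ^ (3 * n)) := by
  have hinj : Function.Injective (fun i : Fin (3 * n) => adr n k b r i) := by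
    intro i i' h
    exact Fin.ext (adr_inj n k b r h)
  have h := ranO_cyl_le (fun i : Fin (3 * n) => adr n k b r i) hinj (fun a => ∀ i, a i = c)
  have hset : {A : Oracle | ∀ j < 3 * n, A (adr n k b r j) = c} =
      {B : Oracle | ∀ i : Fin (3 * n), B (adr n k b r i) = c} := by
    ext A
    simp only [Set.mem_ofPred_eq]
    exact ⟨fun h i => h i i.2, fun h j hj => h ⟨j, hj⟩⟩
  rw [hset]
  refine h.trans (le_of_eq ?_)
  congr 1
  have e := ex_const (I := Fin (3 * n)) c
  rw [Fintype.card_fin] at e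
  convert e

/-- the bad event of a block -/
def Bd (n k : ℕ) (A : Oracle) : Prop :=
  Flagged A n k ∨ ∃ (r : Fin k → Bool) (c : Bool), Cell A n k (List.ofFn r) c

lemma bd_le (n k : ℕ) (hk : k ≤ n) :
    ranO {A : Oracle | Bd n k A} ≤ ENNReal.ofReal (3 * (1 / 2) ^ (2 * n)) := by
  have hsub : {A : Oracle | Bd n k A} ⊆ {A : Oracle | Flagged A n k} ∪
      ⋃ rc ∈ (Finset.univ : Finset ((Fin k → Bool) × Bool)),
        {A : Oracle | Cell A n k (List.ofFn rc.1) rc.2} := by
    rintro A (h | ⟨r, c, h⟩)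
    · exact Or.inl h
    · refine Or.inr ?_
      simp only [Set.mem_iUnion]
      exact ⟨(r, c), Finset.mem_univ _, h⟩
  refine (measure_mono hsub).trans ((measure_union_le _ _).trans ?_)
  have h1 : ranO {A : Oracle | Flagged A n k} ≤ ENNReal.ofReal ((1 / 2) ^ (3 * n)) :=
    cell_le n k false (List.replicate k false) true
  have h2 : ranO (⋃ rc ∈ (Finset.univ : Finset ((Fin k → Bool) × Bool)),
        {A : Oracle | Cell A n k (List.ofFn rc.1) rc.2}) ≤
      ENNReal.ofReal (2 ^ (k + 1) * (1 / 2) ^ (3 * n)) := by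
    refine (measure_biUnion_finset_le _ _).trans ?_
    refine (Finset.sum_le_sum (g := fun _ => ENNReal.ofReal ((1 / 2) ^ (3 * n)))
      (fun rc _ => cell_le n k true (List.ofFn rc.1) rc.2)).trans ?_
    rw [Finset.sum_const, Finset.card_univ, nsmul_eq_mul, ENNReal.ofReal_mul (by positivity)]
    gcongr
    rw [Fintype.card_prod, Fintype.card_fun, Fintype.card_bool, Fintype.card_fin, ← pow_succ,
      Nat.cast_pow, ENNReal.ofReal_pow (by norm_num)]
    norm_num
  refine (add_le_add h1 h2).trans ?_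
  rw [← ENNReal.ofReal_add (by positivity) (by positivity)]
  apply ENNReal.ofReal_le_ofReal
  have h3 : (1 / 2 : ℝ) ^ (3 * n) = (1 / 2) ^ (2 * n) * (1 / 2) ^ n := by
    rw [← pow_add]
    congr 1
    ring
  have h4 : (2 : ℝ) ^ (k + 1) ≤ 2 * 2 ^ n := by
    rw [pow_succ, mul_comm]
    gcongr
    norm_num
  have h5 : (1 / 2 : ℝ) ^ n ≤ 1 := pow_le_one₀ (by norm_num) (by norm_num)
  have h6 : (2 : ℝ) ^ n * (1 / 2) ^ n = 1 := by
    rw [← mul_pow]
    norm_num
  have h7 : (0 : ℝ) < (1 / 2) ^ (2 * n) := by positivity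
  rw [h3]
  calc (1 / 2 : ℝ) ^ (2 * n) * (1 / 2) ^ n + 2 ^ (k + 1) * ((1 / 2) ^ (2 * n) * (1 / 2) ^ n)
      ≤ (1 / 2 : ℝ) ^ (2 * n) * 1 + (2 * 2 ^ n) * ((1 / 2) ^ (2 * n) * (1 / 2) ^ n) := by
        gcongr
    _ = (1 / 2 : ℝ) ^ (2 * n) * 1 + 2 * (1 / 2) ^ (2 * n) * (2 ^ n * (1 / 2) ^ n) := by ring
    _ = 3 * (1 / 2) ^ (2 * n) := by
        rw [h6]
        ring

lemma row_le (n : ℕ) :
    ranO {A : Oracle | ∃ k, k ≤ n ∧ Bd n k A} ≤ ENNReal.ofReal (3 * (1 / 2) ^ n) := by
  have hsub : {A : Oracle | ∃ k, k ≤ n ∧ Bd n k A} ⊆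
      ⋃ k ∈ Finset.range (n + 1), {A : Oracle | Bd n k A} := by
    rintro A ⟨k, hk, h⟩
    simp only [Set.mem_iUnion]
    exact ⟨k, Finset.mem_range.mpr (by omega), h⟩
  refine (measure_mono hsub).trans ((measure_biUnion_finset_le _ _).trans ?_)
  refine (Finset.sum_le_sum (g := fun _ => ENNReal.ofReal (3 * (1 / 2) ^ (2 * n)))
    (fun k hk => bd_le n k (by have := Finset.mem_range.mp hk; omega))).trans ?_
  rw [Finset.sum_const, Finset.card_range, nsmul_eq_mul, ← ENNReal.ofReal_natCast,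
    ← ENNReal.ofReal_mul (by positivity)]
  apply ENNReal.ofReal_le_ofReal
  have h1 : ((n + 1 : ℕ) : ℝ) ≤ 2 ^ n := by
    exact_mod_cast Nat.lt_two_pow_self
  have h2 : (1 / 2 : ℝ) ^ (2 * n) = (1 / 2) ^ n * (1 / 2) ^ n := by
    rw [← pow_add]
    congr 1
    ring
  have h6 : (2 : ℝ) ^ n * (1 / 2) ^ n = 1 := by
    rw [← mul_pow]
    norm_num
  rw [h2]
  calc ((n + 1 : ℕ) : ℝ) * (3 * ((1 / 2) ^ n * (1 / 2) ^ n))
      ≤ 2 ^ n * (3 * ((1 / 2) ^ n * (1 / 2) ^ n)) := by gcongr
    _ = 3 * (1 / 2) ^ n * (2 ^ n * (1 / 2) ^ n) := by ring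
    _ = 3 * (1 / 2) ^ n := by rw [h6, mul_one]

theorem p_good : P_good := by
  refine ⟨4, by norm_num, ?_⟩
  set G : Set Oracle := {A : Oracle | ∀ n k, 4 ≤ n → k ≤ n →
    ¬ Flagged A n k ∧ ∀ (r : List Bool) (c : Bool), r.length = k → ¬ Cell A n k r c} with hG
  have hcov : (Set.univ : Set Oracle) ⊆ G ∪ ⋃ i : ℕ, {A : Oracle | ∃ k, k ≤ i + 4 ∧
      Bd (i + 4) k A} := by
    intro A _
    by_cases hA : A ∈ G
    · exact Or.inl hA
    · refine Or.inr ?_
      rw [hG] at hA
      simp only [Set.mem_ofPred_eq, not_forall] at hA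
      obtain ⟨n, k, hn, hk, h⟩ := hA
      simp only [Set.mem_iUnion, Set.mem_ofPred_eq]
      refine ⟨n - 4, k, by omega, ?_⟩
      rw [Nat.sub_add_cancel hn]
      by_contra hb
      apply h
      unfold Bd at hb
      push Not at hb
      refine ⟨hb.1, ?_⟩
      intro r c hr
      have := hb.2 (fun i => r[i]'(by have := i.2; omega)) c
      have e : List.ofFn (fun i : Fin k => r[i]'(by have := i.2; omega)) = r := by
        apply List.ext_getElem
        · simp [hr]
        · intro i h1 h2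
          simp
      rwa [e] at this
  have h1 : (1 : ENNReal) ≤ ranO G + ENNReal.ofReal (3 / 8) := by
    calc (1 : ENNReal) = ranO Set.univ := by rw [measure_univ]
      _ ≤ ranO (G ∪ ⋃ i : ℕ, {A : Oracle | ∃ k, k ≤ i + 4 ∧ Bd (i + 4) k A}) :=
        measure_mono hcov
      _ ≤ ranO G + ranO (⋃ i : ℕ, {A : Oracle | ∃ k, k ≤ i + 4 ∧ Bd (i + 4) k A}) :=
        measure_union_le _ _
      _ ≤ ranO G + ∑' i : ℕ, ENNReal.ofReal (3 * (1 / 2) ^ (i + 4)) := by
        gcongr
        refine (measure_iUnion_le _).trans (ENNReal.tsum_le_tsum fun i => row_le (i + 4))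
      _ = ranO G + ENNReal.ofReal (3 / 8) := by
        congr 1
        have hs : Summable (fun i : ℕ => 3 * (1 / 2 : ℝ) ^ (i + 4)) := by
          have := (summable_geometric_two).mul_left (3 * (1 / 2 : ℝ) ^ 4)
          refine this.congr fun i => ?_
          rw [pow_add]
          ring
        rw [← ENNReal.ofReal_tsum_of_nonneg (fun i => by positivity) hs]
        congr 1
        have h2 : ∀ i : ℕ, 3 * (1 / 2 : ℝ) ^ (i + 4) = (3 * (1 / 2) ^ 4) * (1 / 2) ^ i := by
          intro i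
          rw [pow_add]
          ring
        rw [tsum_congr h2, tsum_mul_left, tsum_geometric_two]
        norm_num
  by_contra h0
  have h2 : ranO G = 0 := nonpos_iff_eq_zero.mp (not_lt.mp h0)
  rw [h2, zero_add] at h1
  have h3 : ENNReal.ofReal (3 / 8) < 1 := by
    rw [← ENNReal.ofReal_one]
    exact (ENNReal.ofReal_lt_ofReal_iff (by norm_num)).mpr (by norm_num)
  exact absurd h1 (not_le.mpr h3)

end Pool.Agent.W2helper66.GF
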